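import Mathlib
import Pool.Agent.H749Z.PS.Defs
import Pool.Agent.H749Z.PS.Main

set_option autoImplicit false

open scoped Topology

namespace Pool.Agent.Results.MP_ffb385_an.ASpaceable

open H749Z.PS

/-- For `𝕂 = ℝ` and `𝕂 = ℂ` there is an infinite-dimensional subspace `W` of `C^∞([0,1])`, closed
in the Fréchet topology, all of whose nonzero members have a Taylor series of radius of
convergence `0` at every point of `[0,1]`. -/
theorem result (𝕂 : Type) [RCLike 𝕂] : ∃ W : Submodule 𝕂 (Cinf 𝕂),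
    IsClosed[frechet 𝕂] (W : Set (Cinf 𝕂)) ∧ ¬ FiniteDimensional 𝕂 W ∧
      ∀ f ∈ W, f ≠ 0 → ∀ x : I, rho f.1 x = 0 :=
  main 𝕂

end Pool.Agent.Results.MP_ffb385_an.ASpaceable
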